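import Pool.Agent.N329.SD.Stm

/-!
Project SD, part NAME: the fast Cauchy name of a base 8 real.
-/

set_option autoImplicit false

namespace Pool.Agent.N263.SD

open Pool.Agent.N329.SD

private noncomputable def f (x y : ℕ → ℕ) (n : ℕ) : ℝ :=
  ((2 * (x n % 2) + y n % 2 : ℕ) : ℝ) / 8 ^ (n + 1)

private theorem f_nonneg (x y : ℕ → ℕ) (n : ℕ) : 0 ≤ f x y n := by
  unfold f; positivity

private theorem f_le (x y : ℕ → ℕ) (i n : ℕ) :
    f x y (n + i) ≤ 3 / 8 ^ (i + 1) * (1 / 8) ^ n := by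
  unfold f
  have h : ((2 * (x (n + i) % 2) + y (n + i) % 2 : ℕ) : ℝ) ≤ 3 := by
    have : 2 * (x (n + i) % 2) + y (n + i) % 2 ≤ 3 := by omega
    exact_mod_cast this
  have h2 : (3 : ℝ) / 8 ^ (i + 1) * (1 / 8) ^ n = 3 / 8 ^ (n + i + 1) := by
    rw [one_div, inv_pow, pow_succ, pow_succ, pow_add]
    field_simp
  rw [h2]
  exact div_le_div_of_nonneg_right h (by positivity)

private theorem geo (i : ℕ) : Summable fun n : ℕ => (3 : ℝ) / 8 ^ (i + 1) * (1 / 8) ^ n :=
  (summable_geometric_of_lt_one (by norm_num) (by norm_num)).mul_left _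

private theorem f_summable (x y : ℕ → ℕ) : Summable (f x y) :=
  Summable.of_nonneg_of_le (f_nonneg x y) (fun n => f_le x y 0 n) (geo 0)

private theorem num_eq (x y : ℕ → ℕ) (i : ℕ) :
    (num x y i : ℝ) / 8 ^ i = ∑ n ∈ Finset.range i, f x y n := by
  induction i with
  | zero => simp [num]
  | succ i ih =>
    rw [Finset.sum_range_succ, ← ih]
    simp only [num, f]
    push_cast
    rw [pow_succ]
    field_simp

theorem name : S_NAME := by
  intro x y i
  have h1 : rat (nm x y i) = (num x y i : ℝ) / 8 ^ i := by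
    have h8 : 1 ≤ 8 ^ i := Nat.one_le_pow _ _ (by norm_num)
    unfold rat nm
    simp only [Nat.unpair_pair]
    rw [Nat.cast_sub h8]
    simp
  have h2 : rr x y = ∑ n ∈ Finset.range i, f x y n + ∑' n, f x y (n + i) :=
    ((f_summable x y).sum_add_tsum_nat_add i).symm
  have h3 : 0 ≤ ∑' n, f x y (n + i) := tsum_nonneg fun n => f_nonneg x y _
  have h4 : ∑' n, f x y (n + i) ≤ ∑' n : ℕ, (3 : ℝ) / 8 ^ (i + 1) * (1 / 8) ^ n :=
    ((summable_nat_add_iff i).mpr (f_summable x y)).tsum_le_tsum (fun n => f_le x y i n) (geo i)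
  rw [tsum_mul_left, tsum_geometric_of_lt_one (by norm_num) (by norm_num)] at h4
  rw [h1, num_eq, h2, sub_add_cancel_left, abs_neg, abs_of_nonneg h3]
  have h5 : (3 : ℝ) / 8 ^ (i + 1) * (1 - 1 / 8)⁻¹ ≤ 1 / 8 ^ i := by
    have : (3 : ℝ) / 8 ^ (i + 1) * (1 - 1 / 8)⁻¹ = 3 / 7 * (1 / 8 ^ i) := by
      rw [pow_succ]; field_simp; norm_num
    rw [this]
    have : (0 : ℝ) < 1 / 8 ^ i := by positivity
    linarith
  refine h4.trans (h5.trans ?_)
  rw [one_div_pow]
  exact one_div_le_one_div_of_le (by positivity) (pow_le_pow_left₀ (by norm_num) (by norm_num) i)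

end Pool.Agent.N263.SD
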